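import Pool.Agent.H33.NFA.A
import Pool.Agent.H96.T1.KEYK
import Pool.Agent.H22.NF.NSU

/-!
# NFA, row CNB: the number of the classes
-/

set_option autoImplicit false

namespace Pool.NFA

open Polynomial Matrix NumberField IsDedekindDomain Pool.HYP Pool.TOW Pool.AVS Pool.T1 Pool.NF
  Pool.T1.H96K

/-- The pair of a class is a pair of its polynomial. -/
theorem h22_pmn {K : Type} [Field K] [NumberField K] {B Y : ℝ} {d : Fin 3 → ℤ}
    {z : (𝓞 K)[X] × K[X]} {E : Matrix (Fin 3) (Fin 3) K} {G S : Matrix (Fin 3) (Fin 3) (𝓞 K)}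
    (D : TDat K) (hD : D.T = ∅) (hm : z.1.Monic) (hdeg : z.1.natDegree = 3)
    (h : PMA B Y d z E G S) : PMn B Y D (fun i => (d i : ℝ)) z.1 (G, S) := by
  obtain ⟨f, α⟩ := z
  obtain ⟨hE, hMG, hMS, hGB, hSB, hGd, h00⟩ := h
  have hinj : Function.Injective (algebraMap (𝓞 K) K) := IsFractionRing.injective (𝓞 K) K
  have hGt : Gᵀ = G := by
    have h1 : (Gᵀ).map (algebraMap (𝓞 K) K) = G.map (algebraMap (𝓞 K) K) := by
      rw [Matrix.transpose_map, ← hMG, Matrix.transpose_mul, Matrix.transpose_mul,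
        Matrix.transpose_transpose, gr_symm, Matrix.mul_assoc]
    refine Matrix.ext fun i j => hinj ?_
    exact congrFun (congrFun h1 i) j
  have hSt : Sᵀ = S := by
    have h1 : (Sᵀ).map (algebraMap (𝓞 K) K) = S.map (algebraMap (𝓞 K) K) := by
      rw [Matrix.transpose_map, ← hMS, Matrix.transpose_mul, Matrix.transpose_mul,
        Matrix.transpose_transpose, gr_symm, Matrix.mul_assoc]
    refine Matrix.ext fun i j => hinj ?_
    exact congrFun (congrFun h1 i) j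
  have hdet : ∀ A : Matrix (Fin 3) (Fin 3) (𝓞 K),
      (A.map (algebraMap (𝓞 K) K)).det = algebraMap (𝓞 K) K A.det := fun A => by
    rw [RingHom.map_det]
    rfl
  have hKd : (G.map (algebraMap (𝓞 K) K)).det ≠ 0 := fun h0 => hGd (hinj (by
    rw [map_zero, ← hdet, h0]))
  have hfm : (fk K f).Monic := hm.map _
  have hfd : (fk K f).natDegree = 3 := by
    show (f.map (algebraMap (𝓞 K) K)).natDegree = 3
    rw [Polynomial.Monic.natDegree_map hm]
    exact hdeg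
  have hrep : Rep 3 (fk K f) α (G.map (algebraMap (𝓞 K) K)) (S.map (algebraMap (𝓞 K) K)) := by
    rw [← hMG, ← hMS]
    exact Pool.HYP.H2.rep_comb _ _ _
  have hex : ∀ i j, Real.exp ((d i + d j : ℤ) : ℝ) = Real.exp ((d i : ℝ) + (d j : ℝ)) :=
    fun i j => by rw [Int.cast_add]
  refine ⟨⟨hGt, hSt, fun i j => ?_, fun i j => ?_, fun P hP => ?_⟩, hGd, ?_, h00⟩
  · have h1 := hGB i j
    rw [hex] at h1
    exact h1
  · have h1 := hSB i j
    rw [hex] at h1
    exact h1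
  · rw [hD] at hP
    exact absurd hP (Finset.notMem_empty P)
  · have h3 := Pool.HYP.chp K 3 (fk K f) α (G.map (algebraMap (𝓞 K) K))
      (S.map (algebraMap (𝓞 K) K)) hfm hfd hrep hKd
    have h4 : pen (G.map (algebraMap (𝓞 K) K)) (S.map (algebraMap (𝓞 K) K)) =
        (Polynomial.mapRingHom (algebraMap (𝓞 K) K)).mapMatrix (pen G S) := by
      refine Matrix.ext fun i j => ?_
      show X * C ((algebraMap (𝓞 K) K) (G i j)) - C ((algebraMap (𝓞 K) K) (S i j))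
        = Polynomial.map (algebraMap (𝓞 K) K) (X * C (G i j) - C (S i j))
      rw [Polynomial.map_sub, Polynomial.map_mul, Polynomial.map_X, Polynomial.map_C,
        Polynomial.map_C]
    rw [h4, ← RingHom.map_det, hdet] at h3
    refine Polynomial.map_injective _ hinj ?_
    show Polynomial.map (algebraMap (𝓞 K) K) (pen G S).det =
      Polynomial.map (algebraMap (𝓞 K) K) (C G.det * f)
    rw [Polynomial.map_mul, Polynomial.map_C]
    exact h3

theorem cnb (hK : KEYAStmt) (hN : NADStmt) (hC : CNAStmt) (hT : NPTStmt) (hU : NUUStmt)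
    (hS : NSUStmt) : CNBStmt := by
  classical
  intro K _ _
  obtain ⟨B, hB, hK⟩ := hK K
  have hn : 1 ≤ dg K := Module.finrank_pos
  obtain ⟨c₁, hc₁, hT⟩ := hT K (9 * B) (by linarith)
  obtain ⟨c₂, hc₂, hU⟩ := hU K (9 * B) (by linarith)
  obtain ⟨c₃, hc₃, hS⟩ := hS B (dg K) hB hn
  refine ⟨c₁ / c₂ * (c₃ * Real.exp (dg K * (B / 3))), ?_⟩
  intro Y A hY hA
  let D : TDat K := ⟨∅, fun _ => 0, fun _ => 0⟩
  have hD : D.T = ∅ := rfl
  have hA1 := hA.1
  have hex : ∀ z ∈ A, ∃ d : Fin 3 → ℤ, Monotone d ∧ ((∑ i, d i : ℤ) : ℝ) ≤ B ∧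
      ∃ E G S, PMA B Y d z E G S := by
    intro z hz
    obtain ⟨h1, h2, h3⟩ := hA1 z hz
    obtain ⟨d, E, G, S, h4, h5, h6⟩ := hK Y z.1 z.2 hY h1 h2 h3
    exact ⟨d, h4, h5, E, G, S, h6⟩
  choose! δ hδ using hex
  have hadn : ∀ z ∈ A, Adn B (fun i => (δ z i : ℝ)) ∧
      1 ≤ B * Y * Real.exp (2 * (δ z 0 : ℝ)) := by
    intro z hz
    obtain ⟨h1, h2, E, G, S, h3⟩ := hδ z hz
    obtain ⟨h4, h5, -⟩ := (hA1 z hz).1
    have h6 := h22_pmn D hD h4 h5 h3
    have hmono : Monotone fun i => (δ z i : ℝ) := fun i j hij => Int.cast_le.2 (h1 hij)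
    obtain ⟨h7, h8, h9⟩ := hN K B Y D _ z.1 (G, S) hB hY hmono h6
    refine ⟨⟨hmono, ?_, h7, h8⟩, h9⟩
    rw [Fin.sum_univ_three] at h2
    push_cast at h2
    exact h2
  have hY0 : (0 : ℝ) < Y := by linarith
  have hcard : (A.card : ℝ) = ∑ d ∈ A.image δ, ((A.filter fun z => δ z = d).card : ℝ) := by
    rw [Finset.card_eq_sum_card_image δ A, Nat.cast_sum]
  have hone : ∀ d ∈ A.image δ, ((A.filter fun z => δ z = d).card : ℝ) ≤
      c₁ / c₂ * Y ^ (6 * dg K) * Real.exp (dg K * (d 0 : ℝ)) := by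
    intro d hd
    obtain ⟨z₀, hz₀, rfl⟩ := Finset.mem_image.1 hd
    obtain ⟨h1, h2⟩ := hadn z₀ hz₀
    have h3 : Adn (9 * B) (fun i => (δ z₀ i : ℝ)) := by
      obtain ⟨a, b, c, e⟩ := h1
      exact ⟨a, by linarith, by linarith, by linarith⟩
    have h4 : 1 ≤ 9 * B * Y * Real.exp (2 * (δ z₀ 0 : ℝ)) := by
      have : 0 ≤ B * Y * Real.exp (2 * (δ z₀ 0 : ℝ)) := by linarith
      linarith
    obtain ⟨h5, h6⟩ := hT D _ Y h3 hY h4
    obtain ⟨h7, h8⟩ := hU _ h3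
    have h9 := hC K B Y D (δ z₀) (AllN K Y) (A.filter fun z => δ z = δ z₀) (by linarith)
      hY0.le hD (hδ z₀ hz₀).1 (fun f hf => ⟨hf.1, hf.2.1⟩) ⟨fun z hz => hA1 z
        (Finset.mem_filter.1 hz).1, fun z hz w hw => hA.2 z (Finset.mem_filter.1 hz).1 w
        (Finset.mem_filter.1 hw).1⟩ (fun z hz => by
          obtain ⟨g1, g2⟩ := Finset.mem_filter.1 hz
          rw [← g2]
          exact (hδ z g1).2.2) h5
    have h10 : ((A.filter fun z => δ z = δ z₀).card : ℝ) *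
        ((UUn K fun i => (δ z₀ i : ℝ)).ncard : ℝ) ≤
        ((PPn (9 * B) Y D fun i => (δ z₀ i : ℝ)).ncard : ℝ) := by exact_mod_cast h9
    have h11 : ((A.filter fun z => δ z = δ z₀).card : ℝ) *
        (c₂ * Real.exp (-(4 * dg K) * (δ z₀ 0 : ℝ))) ≤
        c₁ * Y ^ (6 * dg K) * Real.exp (-(3 * dg K) * (δ z₀ 0 : ℝ)) :=
      (mul_le_mul_of_nonneg_left h8 (Nat.cast_nonneg _)).trans (h10.trans h6)
    have h12 : Real.exp (-(3 * dg K) * (δ z₀ 0 : ℝ)) = Real.exp (dg K * (δ z₀ 0 : ℝ)) *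
        Real.exp (-(4 * dg K) * (δ z₀ 0 : ℝ)) := by
      rw [← Real.exp_add]
      congr 1
      ring
    rw [h12] at h11
    have h13 : 0 < c₂ * Real.exp (-(4 * dg K) * (δ z₀ 0 : ℝ)) :=
      mul_pos hc₂ (Real.exp_pos _)
    refine le_of_mul_le_mul_right (h11.trans (le_of_eq ?_)) h13
    field_simp
  rw [hcard]
  refine (Finset.sum_le_sum hone).trans ?_
  rw [← Finset.mul_sum]
  have h14 := hS (A.image δ) (B / 3) (by
    intro d hd
    obtain ⟨z₀, hz₀, rfl⟩ := Finset.mem_image.1 hd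
    obtain ⟨h1, -⟩ := hadn z₀ hz₀
    exact ⟨h1, by have := (H22.adn_box h1).2.2.2.2; linarith⟩)
  refine (mul_le_mul_of_nonneg_left h14 (by positivity)).trans (le_of_eq ?_)
  ring

end Pool.NFA
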